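import Pool.Agent.Helper47.RF.CoreGoals

/-!
# Packet RF-C2 (MP_c98eff_gt): the left-invariant fields are derivations
-/

namespace Pool.Agent.Helper5.RF

open Finset Pool.Agent.Helper47.RF

theorem E_zero (i : Fin 3) (f : HH → ℝ) : E i f 0 = 0 := by
  unfold E
  rw [zero_mul, map_zero]

/-- a smooth function on the sphere is differentiable off `0` -/
theorem Sm_diff {f : HH → ℝ} (hf : Sm f) {x : HH} (hx : x ≠ 0) : DifferentiableAt ℝ f x :=
  (hf.cd.differentiableOn (by simp)).differentiableAt (isOpen_compl_singleton.mem_nhds hx)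

theorem E_add {i : Fin 3} {f h : HH → ℝ} {x : HH} (hf : Sm f) (hh : Sm h) :
    E i (fun y => f y + h y) x = E i f x + E i h x := by
  by_cases hx : x = 0
  · subst hx; simp [E_zero]
  · unfold E
    rw [fderiv_fun_add (Sm_diff hf hx) (Sm_diff hh hx)]
    rfl

theorem E_sub {i : Fin 3} {f h : HH → ℝ} {x : HH} (hf : Sm f) (hh : Sm h) :
    E i (fun y => f y - h y) x = E i f x - E i h x := by
  by_cases hx : x = 0
  · subst hx; simp [E_zero]
  · unfold E
    rw [fderiv_fun_sub (Sm_diff hf hx) (Sm_diff hh hx)]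
    rfl

theorem E_neg {i : Fin 3} {f : HH → ℝ} {x : HH} : E i (fun y => - f y) x = - E i f x := by
  unfold E
  rw [fderiv_fun_neg]
  rfl

theorem E_mul {i : Fin 3} {f h : HH → ℝ} {x : HH} (hf : Sm f) (hh : Sm h) :
    E i (fun y => f y * h y) x = E i f x * h x + f x * E i h x := by
  by_cases hx : x = 0
  · subst hx; simp [E_zero]
  · unfold E
    rw [fderiv_fun_mul (Sm_diff hf hx) (Sm_diff hh hx)]
    simp only [ContinuousLinearMap.add_apply, ContinuousLinearMap.smul_apply, smul_eq_mul]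
    ring

theorem E_const_mul {i : Fin 3} {c : ℝ} {f : HH → ℝ} {x : HH} (hf : Sm f) :
    E i (fun y => c * f y) x = c * E i f x := by
  by_cases hx : x = 0
  · subst hx; simp [E_zero]
  · unfold E
    rw [fderiv_const_mul (Sm_diff hf hx)]
    rfl

theorem E_sum {ι : Type} (s : Finset ι) (f : ι → HH → ℝ) (i : Fin 3) (x : HH)
    (hf : ∀ a ∈ s, Sm (f a)) : E i (fun y => ∑ a ∈ s, f a y) x = ∑ a ∈ s, E i (f a) x := by
  by_cases hx : x = 0
  · subst hx; simp [E_zero]
  · unfold E
    rw [fderiv_fun_sum (fun a ha => Sm_diff (hf a ha) hx)]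
    simp

theorem E_comp {i : Fin 3} {f : HH → ℝ} {F : ℝ → ℝ} {F' : ℝ} {x : HH} (hf : Sm f) (hx : x ≠ 0)
    (hF : HasDerivAt F F' (f x)) : E i (fun y => F (f y)) x = F' * E i f x := by
  unfold E
  have h := hF.comp_hasFDerivAt x (Sm_diff hf hx).hasFDerivAt
  have h2 : fderiv ℝ (fun y => F (f y)) x = F' • fderiv ℝ f x := h.fderiv
  rw [h2]
  rfl

theorem goal_C2 : Goal_C2 := by
  refine ⟨?_, fun i f h x hf hh => E_add hf hh, fun i f h x hf hh => E_sub hf hh,
    fun i f x => E_neg, fun i f h x hf hh => E_mul hf hh, fun i c f x hf => E_const_mul hf,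
    fun ι s f i x hf => E_sum s f i x hf, fun i f F F' x hf hx hF => E_comp hf hx hF⟩
  intro i c x
  unfold E
  simp

end Pool.Agent.Helper5.RF
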