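import Pool.Agent.Helper73.RF.GoalsB

/-!
# Packet RF-CB (MP_c98eff_gt): bounded curvature implies bounded derivatives
-/

set_option autoImplicit false

open Finset

namespace Pool.Agent.Helper5.RF

open Pool.Agent.Helper73.RF

section

variable {T : ℝ} (F : FBD T)

theorem Hop_add (f g : F.B) : F.Hop (f + g) = F.Hop f + F.Hop g := by
  simp only [FBD.Hop, FBD.Lap, map_add, Finset.sum_add_distrib]
  ring

theorem Hop_sub (f g : F.B) : F.Hop (f - g) = F.Hop f - F.Hop g := by
  simp only [FBD.Hop, FBD.Lap, map_sub, Finset.sum_sub_distrib]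
  ring

theorem Hop_smul (c : ℝ) (f : F.B) : F.Hop (c • f) = c • F.Hop f := by
  simp only [FBD.Hop, FBD.Lap, Derivation.map_smul, ← Finset.smul_sum, smul_sub]

theorem Hop_zero : F.Hop 0 = 0 := by
  simp only [FBD.Hop, FBD.Lap, map_zero, Finset.sum_const_zero, sub_zero]

theorem Hop_one : F.Hop 1 = 0 := by
  simp only [FBD.Hop, FBD.Lap, Derivation.map_one_eq_zero, map_zero, Finset.sum_const_zero, sub_zero]

theorem Hop_sum {ι : Type} (s : Finset ι) (f : ι → F.B) :
    F.Hop (∑ i ∈ s, f i) = ∑ i ∈ s, F.Hop (f i) := by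
  classical
  induction s using Finset.induction_on with
  | empty => simp [Hop_zero]
  | insert a s ha ih => rw [Finset.sum_insert ha, Finset.sum_insert ha, Hop_add, ih]

/-- index type of the derivatives of order `m` -/
abbrev Ix (m : ℕ) := (Fin m → Fin 3) × Fin 3 × Fin 3

/-- the derivatives of order `m` -/
def xx (m : ℕ) (i : Ix m) : F.B := F.Hw (List.ofFn i.1) (F.M i.2.1 i.2.2)

theorem xx_mem (m : ℕ) (i : Ix m) : xx F m i ∈ F.Gset m :=
  ⟨List.ofFn i.1, i.2.1, i.2.2, by simp, rfl⟩

theorem exists_xx {m : ℕ} {x : F.B} (hx : x ∈ F.Gset m) : ∃ i, x = xx F m i := by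
  obtain ⟨w, i, j, hw, rfl⟩ := hx
  subst hw
  refine ⟨(w.get, i, j), ?_⟩
  unfold xx
  simp

/-- sum of squares of the derivatives of order `m` -/
def UU (m : ℕ) : F.B := ∑ i : Ix m, xx F m i ^ 2

theorem ev_UU (m : ℕ) (z : F.Z) (t : TI T) :
    F.ev z t (UU F m) = ∑ i : Ix m, F.ev z t (xx F m i) ^ 2 := by
  unfold UU
  rw [map_sum]
  apply Finset.sum_congr rfl
  intro i _
  rw [map_pow]

theorem UU_nonneg (m : ℕ) (z : F.Z) (t : TI T) : 0 ≤ F.ev z t (UU F m) := by
  rw [ev_UU]
  exact Finset.sum_nonneg fun i _ => sq_nonneg _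

theorem sq_le_UU {m : ℕ} {x : F.B} (hx : x ∈ F.Gset m) (z : F.Z) (t : TI T) :
    F.ev z t x ^ 2 ≤ F.ev z t (UU F m) := by
  obtain ⟨i, rfl⟩ := exists_xx F hx
  rw [ev_UU]
  exact Finset.single_le_sum (f := fun i => F.ev z t (xx F m i) ^ 2) (fun i _ => sq_nonneg _)
    (Finset.mem_univ i)

theorem abs_le_UU {m : ℕ} {x : F.B} (hx : x ∈ F.Gset m) (z : F.Z) (t : TI T) :
    |F.ev z t x| ≤ √(F.ev z t (UU F m)) :=
  Real.abs_le_sqrt (sq_le_UU F hx z t)

end

theorem cb (hCA : CaStmt) (hMP1 : Mp1Stmt) (hBDD : BddStmt) (hPRD : PrdStmt) : CbStmt := by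
  intro T F hF hR K hK hB
  have hbase := hF.toBase
  obtain ⟨-, -, hcl, -⟩ := hBDD T F hbase
  -- `Bd0` of finite sums
  have hB0 : F.Bd0 0 := by
    have h1 := (hcl _ _ (hB [] 0 0) (hB [] 0 0)).2.1
    rwa [sub_self] at h1
  have hBsum : ∀ {ι : Type} (s : Finset ι) (f : ι → F.B), (∀ i ∈ s, F.Bd0 (f i)) →
      F.Bd0 (∑ i ∈ s, f i) := by
    intro ι s f
    classical
    induction s using Finset.induction_on with
    | empty => intro _; simpa using hB0
    | insert a s ha ih =>
      intro h
      rw [Finset.sum_insert ha]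
      exact (hcl _ _ (h a (Finset.mem_insert_self _ _))
        (ih fun i hi => h i (Finset.mem_insert_of_mem hi))).1
  have hBU : ∀ m, F.Bd0 (UU F m) := by
    intro m
    apply hBsum
    intro i _
    rw [pow_two]
    exact (hcl _ _ (hB _ _ _) (hB _ _ _)).2.2.1
  -- main claim
  have main : ∀ m : ℕ, ∃ C : ℝ, 0 ≤ C ∧ ∀ x ∈ F.Gset m, ∀ z t, |F.ev z t x| ≤ C := by
    intro m
    induction m using Nat.strong_induction_on with
    | _ m ih =>
    rcases Nat.eq_zero_or_pos m with rfl | hm
    · refine ⟨|K|, abs_nonneg _, ?_⟩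
      rintro x ⟨w, i, j, hw, rfl⟩ z t
      have : w = [] := List.length_eq_zero_iff.1 hw
      subst this
      exact (hK z t i j).trans (le_abs_self K)
    · -- bound of the lower derivatives
      choose! c hc0 hc using ih
      set C1 := ∑ j ∈ range m, c j with hC1
      have hC1le : ∀ j < m, c j ≤ C1 := fun j hj =>
        Finset.single_le_sum (f := c) (fun i hi => hc0 i (Finset.mem_range.1 hi))
          (Finset.mem_range.2 hj)
      have hC10 : 0 ≤ C1 := Finset.sum_nonneg fun i hi => hc0 i (Finset.mem_range.1 hi)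
      have hlow : ∀ j < m, ∀ x ∈ F.Gset j, ∀ z t, |F.ev z t x| ≤ C1 := fun j hj x hx z t =>
        (hc j hj x hx z t).trans (hC1le j hj)
      -- bound of `Hop x`
      have hHop : ∀ x ∈ F.Gset m, ∃ C : ℝ, 0 ≤ C ∧ ∀ z t,
          |F.ev z t (F.Hop x)| ≤ C * (1 + √(F.ev z t (UU F m))) := by
        intro x hx
        have h1 := hCA T F hF hR m x hx
        refine Submodule.span_induction
          (p := fun y _ => ∃ C : ℝ, 0 ≤ C ∧ ∀ z t, |F.ev z t y| ≤ C * (1 + √(F.ev z t (UU F m))))
          ?_ ?_ ?_ ?_ h1
        · rintro y ⟨k, l, hkl, a, ha, b, hb, rfl⟩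
          by_cases hk : k = m
          · have hl : l < m := by omega
            subst hk
            refine ⟨C1, hC10, fun z t => ?_⟩
            rw [map_mul, abs_mul]
            have e1 := abs_le_UU F ha z t
            have e2 := hlow l hl b hb z t
            calc |F.ev z t a| * |F.ev z t b| ≤ √(F.ev z t (UU F k)) * C1 :=
                  mul_le_mul e1 e2 (abs_nonneg _) (Real.sqrt_nonneg _)
              _ ≤ C1 * (1 + √(F.ev z t (UU F k))) := by nlinarith
          · by_cases hl : l = m
            · have hk : k < m := by omega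
              subst hl
              refine ⟨C1, hC10, fun z t => ?_⟩
              rw [map_mul, abs_mul]
              have e1 := abs_le_UU F hb z t
              have e2 := hlow k hk a ha z t
              calc |F.ev z t a| * |F.ev z t b| ≤ C1 * √(F.ev z t (UU F l)) :=
                    mul_le_mul e2 e1 (abs_nonneg _) hC10
                _ ≤ C1 * (1 + √(F.ev z t (UU F l))) := by nlinarith
            · have hk' : k < m := by omega
              have hl' : l < m := by omega
              refine ⟨C1 * C1, mul_nonneg hC10 hC10, fun z t => ?_⟩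
              rw [map_mul, abs_mul]
              have e1 := hlow k hk' a ha z t
              have e2 := hlow l hl' b hb z t
              have e3 := Real.sqrt_nonneg (F.ev z t (UU F m))
              calc |F.ev z t a| * |F.ev z t b| ≤ C1 * C1 :=
                    mul_le_mul e1 e2 (abs_nonneg _) hC10
                _ ≤ C1 * C1 * (1 + √(F.ev z t (UU F m))) := by
                    nlinarith [mul_nonneg (mul_nonneg hC10 hC10) e3]
        · refine ⟨0, le_rfl, fun z t => ?_⟩
          simp
        · rintro x y _ _ ⟨A, hA0, hA⟩ ⟨B, hB0, hB⟩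
          refine ⟨A + B, add_nonneg hA0 hB0, fun z t => ?_⟩
          rw [map_add, add_mul]
          exact (abs_add_le _ _).trans (add_le_add (hA z t) (hB z t))
        · rintro r x _ ⟨A, hA0, hA⟩
          refine ⟨|r| * A, mul_nonneg (abs_nonneg _) hA0, fun z t => ?_⟩
          rw [map_smul, smul_eq_mul, abs_mul, mul_assoc]
          exact mul_le_mul_of_nonneg_left (hA z t) (abs_nonneg _)
      choose d hd0 hd using fun i : Ix m => hHop (xx F m i) (xx_mem F m i)
      -- the differential inequality
      set C := 4 * ∑ i : Ix m, d i with hC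
      have hC0 : 0 ≤ C := by
        have : 0 ≤ ∑ i : Ix m, d i := Finset.sum_nonneg fun i _ => hd0 i
        linarith
      have hUineq : ∀ z t, F.ev z t (F.Hop (UU F m)) ≤ C * (1 + F.ev z t (UU F m)) := by
        intro z t
        set u := F.ev z t (UU F m) with hu
        have hu0 : 0 ≤ u := UU_nonneg F m z t
        have hsq : √u ^ 2 = u := Real.sq_sqrt hu0
        have hs0 := Real.sqrt_nonneg u
        have hss : √u * (1 + √u) ≤ 2 * (1 + u) := by
          nlinarith [sq_nonneg (√u - 1)]
        have e1 : F.ev z t (F.Hop (UU F m)) = ∑ i : Ix m, F.ev z t (F.Hop (xx F m i ^ 2)) := by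
          unfold UU
          rw [Hop_sum, map_sum]
        rw [e1, hC]
        have e2 : 4 * (∑ i : Ix m, d i) * (1 + u) = ∑ i : Ix m, 4 * d i * (1 + u) := by
          rw [Finset.mul_sum, Finset.sum_mul]
        rw [e2]
        apply Finset.sum_le_sum
        intro i _
        rw [(hPRD T F (xx F m i) (xx F m i)).2.2.2.2]
        rw [map_sub, map_smul, map_smul, map_mul]
        have e3 : 0 ≤ F.ev z t (F.gg (xx F m i) (xx F m i)) := by
          unfold FBD.gg
          rw [map_sum]
          apply Finset.sum_nonneg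
          intro a _
          rw [map_mul]
          exact mul_self_nonneg _
        have e4 : F.ev z t (xx F m i) * F.ev z t (F.Hop (xx F m i)) ≤ √u * (d i * (1 + √u)) := by
          refine (le_abs_self _).trans ?_
          rw [abs_mul]
          exact mul_le_mul (abs_le_UU F (xx_mem F m i) z t) (hd i z t) (abs_nonneg _) hs0
        have e5 : √u * (d i * (1 + √u)) ≤ d i * (2 * (1 + u)) := by
          have := mul_le_mul_of_nonneg_left hss (hd0 i)
          linarith [mul_comm (√u) (d i * (1 + √u))]
        simp only [smul_eq_mul]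
        linarith
      -- the exponential
      obtain ⟨g, hg⟩ := hbase.comp (fun r => Real.exp (C * r)) Set.univ isOpen_univ
        (Real.contDiff_exp.comp (contDiff_const.mul contDiff_id)).contDiffOn F.tt
        (fun _ _ => Set.mem_univ _)
      have hch := hbase.chain (fun r => Real.exp (C * r)) Set.univ isOpen_univ
        (Real.contDiff_exp.comp (contDiff_const.mul contDiff_id)).contDiffOn F.tt g
        (fun _ _ => Set.mem_univ _) hg
      have hgt : ∀ z (t : TI T), F.ev z t g = Real.exp (C * t) := by
        intro z t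
        rw [hg, hbase.tt_ev]
      have hHg : ∀ a, F.H a g = 0 := by
        intro a
        apply hbase.ext
        intro z t
        rw [(hch z t).1 a, hbase.tt_H, map_zero, mul_zero]
      have hder : ∀ r : ℝ, deriv (fun r => Real.exp (C * r)) r = C * Real.exp (C * r) := by
        intro r
        have h1 : HasDerivAt (fun r => Real.exp (C * r)) (Real.exp (C * r) * (C * 1)) r :=
          ((hasDerivAt_id r).const_mul C).exp
        rw [h1.deriv]
        ring
      have hDg : ∀ z (t : TI T), F.ev z t (F.D g) = C * Real.exp (C * t) := by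
        intro z t
        rw [(hch z t).2.2, hbase.tt_D, map_one, mul_one, hbase.tt_ev, hder]
      have hHopg : ∀ z (t : TI T), F.ev z t (F.Hop g) = C * Real.exp (C * t) := by
        intro z t
        unfold FBD.Hop FBD.Lap
        rw [map_sub, hDg]
        have : ∑ a, F.H a (F.H a g) = 0 := by
          apply Finset.sum_eq_zero
          intro a _
          rw [hHg, map_zero]
        rw [this, map_zero, sub_zero]
      -- maximum principle
      obtain ⟨U0, t0, ht0, ht0T, hU0⟩ := hBU m
      set U1 := |U0| with hU1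
      have hU10 : 0 ≤ U1 := abs_nonneg _
      have hfin : ∀ z (t : TI T), F.ev z t (UU F m) ≤ (1 + U1) * Real.exp (C * T) := by
        intro z t
        have hmp := hMP1 T F hbase ((1 + U1) • g - (1 + UU F m)) 0 t C 1 le_rfl t.2.2 hC0 one_pos
          (by
            intro ε hε
            refine ⟨t0, ht0, fun z t ht1 ht2 => ?_⟩
            have h1 := hU0 z t (by linarith)
            have h2 : F.ev z t (UU F m) ≤ U1 := (le_abs_self _).trans (h1.trans (le_abs_self _))
            have h3 : 1 ≤ Real.exp (C * t) := Real.one_le_exp (mul_nonneg hC0 t.2.1.le)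
            rw [map_sub, map_smul, map_add, map_one, hgt, smul_eq_mul]
            nlinarith)
          (by
            intro z t _ _ _ _ _
            rw [Hop_sub, Hop_add, Hop_one, Hop_smul, zero_add]
            rw [map_sub, map_smul, map_add, map_one, hgt, smul_eq_mul, map_sub, map_smul, hHopg,
              smul_eq_mul]
            have := hUineq z t
            nlinarith)
          z t t.2.1 le_rfl
        rw [map_sub, map_smul, map_add, map_one, hgt, smul_eq_mul] at hmp
        have h4 : Real.exp (C * t) ≤ Real.exp (C * T) :=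
          Real.exp_le_exp.2 (mul_le_mul_of_nonneg_left t.2.2.le hC0)
        have h5 := mul_le_mul_of_nonneg_left h4 (by linarith : 0 ≤ 1 + U1)
        linarith
      refine ⟨√((1 + U1) * Real.exp (C * T)), Real.sqrt_nonneg _, fun x hx z t => ?_⟩
      exact (abs_le_UU F hx z t).trans (Real.sqrt_le_sqrt (hfin z t))
  intro w i j
  obtain ⟨C, -, hC⟩ := main w.length
  exact ⟨C, fun z t => hC _ ⟨w, i, j, rfl, rfl⟩ z t⟩

end Pool.Agent.Helper5.RF
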