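import Pool.Agent.Helper64.RF.GoalsF

/-!
# Packet RF-DGE (MP_c98eff_gt)
-/

namespace Pool.Agent.Helper5.RF

open Pool.Agent.Helper64.RF

theorem dge : DGE := by
  intro c0 M hc hsym hM
  have hH : M.IsHermitian := by
    ext i j
    simp [Matrix.conjTranspose_apply, hsym i j]
  have hdet : M.det = ∏ i, hH.eigenvalues i := by
    have := hH.det_eq_prod_eigenvalues
    simpa using this
  have hev : ∀ i, c0 ≤ hH.eigenvalues i := by
    intro i
    set v : Fin 3 → ℝ := ⇑(hH.eigenvectorBasis i) with hv
    have h1 : M.mulVec v = hH.eigenvalues i • v := hH.mulVec_eigenvectorBasis i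
    have hn : v 0 ^ 2 + v 1 ^ 2 + v 2 ^ 2 = 1 := by
      have h2 := hH.eigenvectorBasis.norm_eq_one i
      have h3 := EuclideanSpace.norm_sq_eq (hH.eigenvectorBasis i)
      rw [h2] at h3
      simp only [Fin.sum_univ_three, Real.norm_eq_abs, sq_abs] at h3
      rw [hv]
      linarith
    have h4 : ∑ a, ∑ b, M a b * v a * v b = hH.eigenvalues i * (v 0 ^ 2 + v 1 ^ 2 + v 2 ^ 2) := by
      have h5 : ∀ a, ∑ b, M a b * v a * v b = v a * (M.mulVec v) a := by
        intro a
        simp only [Matrix.mulVec, dotProduct, Finset.mul_sum]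
        apply Finset.sum_congr rfl
        intro b _
        ring
      simp only [h5, h1, Pi.smul_apply, smul_eq_mul, Fin.sum_univ_three]
      ring
    have h6 := hM v
    rw [h4, hn, mul_one, mul_one] at h6
    exact h6
  rw [hdet, Fin.prod_univ_three]
  calc c0 ^ 3 = c0 * c0 * c0 := by ring
    _ ≤ _ := by
      have h0 := hev 0
      have h1 := hev 1
      have h2 := hev 2
      have p0 := hc.le.trans h0
      have p1 := hc.le.trans h1
      exact mul_le_mul (mul_le_mul h0 h1 hc.le p0) h2 hc.le (mul_nonneg p0 p1)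

end Pool.Agent.Helper5.RF
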